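import Pool.Agent.K1H14.SE.Stm

/-!
# Project SE: the trace on the full Clifford algebra (adapted from `Pool.Agent.K1H59.SD.t_TR`)
-/

set_option autoImplicit false

namespace Pool.Agent.K1H4.SE

open Pool.Agent.K1H14.SE

universe u

theorem t_FTR : S_FTR.{u} := by
  intro C _ _ d M st h
  have hfd : FiniteDimensional ℂ C := by
    have hfin : ({x | ∃ K : Finset (Fin d), x = M K} : Set C).Finite := by
      refine (Set.finite_range M).subset ?_
      rintro _ ⟨K, rfl⟩
      exact ⟨K, rfl⟩
    refine Module.finite_def.2 ?_
    have htop : Submodule.span ℂ {x | ∃ K : Finset (Fin d), x = M K} = ⊤ :=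
      Submodule.eq_top_iff'.2 h.span
    rw [← htop]
    exact Submodule.fg_span hfin
  refine ⟨hfd, ?_⟩
  have hnt : Nontrivial C := ⟨⟨1, 0, h.ne⟩⟩
  let T : C →ₗ[ℂ] ℂ := (LinearMap.trace ℂ C).comp (LinearMap.mul ℂ C)
  have hT : ∀ x, T x = LinearMap.trace ℂ C (LinearMap.mulLeft ℂ x) := fun x => rfl
  have hcyc : ∀ x y, T (x * y) = T (y * x) := by
    intro x y
    rw [hT, hT, LinearMap.mulLeft_mul, LinearMap.mulLeft_mul]
    exact LinearMap.trace_mul_comm ℂ _ _
  have h1 : T 1 = Module.finrank ℂ C := by
    rw [hT, LinearMap.mulLeft_one]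
    exact LinearMap.trace_id ℂ C
  have hfr : (Module.finrank ℂ C : ℂ) ≠ 0 := by
    exact_mod_cast (Module.finrank_pos (R := ℂ) (M := C)).ne'
  refine ⟨(Module.finrank ℂ C : ℂ)⁻¹ • T, ?_, ?_⟩
  · intro K
    by_cases hKe : K = ∅
    · subst hKe
      rw [if_pos rfl, h.one, LinearMap.smul_apply, h1, smul_eq_mul, inv_mul_cancel₀ hfr]
    · rw [if_neg hKe]
      -- an element `j` such that `M K` anticommutes with `M {j}`
      obtain ⟨j, hodd⟩ : ∃ j : Fin d, Odd (K.card * ({j} : Finset (Fin d)).card +
          (K ∩ {j}).card) := by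
        rcases Nat.even_or_odd K.card with hK | hK
        · obtain ⟨j, hj⟩ := Finset.nonempty_iff_ne_empty.2 hKe
          refine ⟨j, ?_⟩
          rw [Finset.inter_singleton_of_mem hj, Finset.card_singleton, mul_one]
          exact hK.add_one
        · have hnu : ∃ j, j ∉ K := by
            by_contra hcon
            push Not at hcon
            have : K = Finset.univ := Finset.eq_univ_iff_forall.2 hcon
            rw [this, Finset.card_univ, Fintype.card_fin] at hK
            have := h.dim
            rw [Nat.odd_iff] at hK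
            omega
          obtain ⟨j, hj⟩ := hnu
          refine ⟨j, ?_⟩
          rw [Finset.inter_singleton_of_notMem hj, Finset.card_singleton, mul_one,
            Finset.card_empty, add_zero]
          exact hK
      have hcm := h.comm K {j}
      rw [hodd.neg_one_pow, neg_smul, one_smul] at hcm
      have hst := h.st_inv {j}
      rw [h.st_M {j}, Finset.card_singleton] at hst
      norm_num at hst
      have e2 : T (M K) = - T (M K) := by
        calc T (M K) = T (M {j} * (M {j} * M K)) := by rw [← mul_assoc, hst, one_mul]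
          _ = T (M {j} * M K * M {j}) := hcyc _ _
          _ = T (M {j} * (M K * M {j})) := by rw [mul_assoc]
          _ = T (M {j} * (-(M {j} * M K))) := by rw [hcm]
          _ = T (- M K) := by rw [mul_neg, ← mul_assoc, hst, one_mul]
          _ = - T (M K) := map_neg _ _
      have e3 : T (M K) = 0 := by
        have : (2 : ℂ) * T (M K) = 0 := by linear_combination e2
        exact (mul_eq_zero.1 this).resolve_left two_ne_zero
      rw [LinearMap.smul_apply, e3, smul_zero]
  · intro x y
    rw [LinearMap.smul_apply, LinearMap.smul_apply, hcyc]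

end Pool.Agent.K1H4.SE
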